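import Mathlib

set_option autoImplicit false

/-!
# Theorem U, first part: the abstract system, Cauchy-Schwarz, the final step, small petals
-/

namespace Pool.Agent.MP1f45fc.U

/-- different elements of `A` have distance at least one -/
def Sep (A : Set ℝ) : Prop := ∀ z ∈ A, ∀ z' ∈ A, |z - z'| < 1 → z = z'

/-- An isometry with an axis, seen through its elliptic form `E` and its two eigenfunctionals. -/
structure Sys (V : Type*) [AddCommGroup V] [Module ℝ V] where
  E : V →ₗ[ℝ] V →ₗ[ℝ] ℝ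
  α : V →ₗ[ℝ] ℝ
  β : V →ₗ[ℝ] ℝ
  g : V →ₗ[ℝ] V
  b : ℝ
  symm : ∀ x y, E x y = E y x
  pos : ∀ x, 0 ≤ E x x
  inv : ∀ x y, E (g x) (g y) = E x y
  hα : ∀ x, α (g x) = b⁻¹ * α x
  hβ : ∀ x, β (g x) = b * β x
  hb : 1 < b

variable {V : Type*} [AddCommGroup V] [Module ℝ V]

namespace Sys

variable (S : Sys V)

/-- the full form -/
noncomputable def Q (x y : V) : ℝ := S.E x y + S.α x * S.β y + S.β x * S.α y

/-- the products of `x` with its images are `ε`-close to elements of `A`, up to size `M` -/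
def NI (A : Set ℝ) (x : V) (ε M : ℝ) : Prop :=
  ∀ k : ℕ, |S.α x * S.β x| * S.b ^ k ≤ M → ∃ z ∈ A, |S.Q x ((S.g ^ k) x) - z| ≤ ε

lemma cs (x y : V) : S.E x y ^ 2 ≤ S.E x x * S.E y y :=
  LinearMap.BilinForm.apply_sq_le_of_symm S.E S.pos ⟨fun x y => S.symm x y⟩ x y

lemma b_pos : 0 < S.b := lt_trans one_pos S.hb

lemma E_pow (k : ℕ) (x y : V) : S.E ((S.g ^ k) x) ((S.g ^ k) y) = S.E x y := by
  induction k with
  | zero => simp
  | succ k ih => rw [pow_succ', Module.End.mul_apply, Module.End.mul_apply, S.inv, ih]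

lemma α_pow (k : ℕ) (x : V) : S.α ((S.g ^ k) x) = (S.b⁻¹) ^ k * S.α x := by
  induction k with
  | zero => simp
  | succ k ih => rw [pow_succ', Module.End.mul_apply, S.hα, ih, pow_succ]; ring

lemma β_pow (k : ℕ) (x : V) : S.β ((S.g ^ k) x) = S.b ^ k * S.β x := by
  induction k with
  | zero => simp
  | succ k ih => rw [pow_succ', Module.End.mul_apply, S.hβ, ih, pow_succ]; ring

lemma Q_symm (x y : V) : S.Q x y = S.Q y x := by
  unfold Q; rw [S.symm]; ring

lemma Q_pow (k : ℕ) (x y : V) : S.Q ((S.g ^ k) x) ((S.g ^ k) y) = S.Q x y := by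
  have hb := S.b_pos.ne'
  have h1 : (S.b⁻¹) ^ k * S.b ^ k = 1 := by rw [← mul_pow, inv_mul_cancel₀ hb, one_pow]
  unfold Q
  rw [E_pow, α_pow, α_pow, β_pow, β_pow]
  linear_combination (S.α x * S.β y + S.β x * S.α y) * h1

lemma q_eq (x : V) (k : ℕ) : S.Q x ((S.g ^ k) x) =
    S.E x ((S.g ^ k) x) + S.α x * S.β x * (S.b ^ k + (S.b⁻¹) ^ k) := by
  unfold Q; rw [α_pow, β_pow]; ring

lemma E_le (x : V) (k : ℕ) : |S.E x ((S.g ^ k) x)| ≤ S.E x x := by
  have h := S.cs x ((S.g ^ k) x)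
  rw [E_pow] at h
  exact abs_le_of_sq_le_sq (by nlinarith) (S.pos x)

/-- continuity of the elliptic part along a near-return `d` -/
lemma E_step (x : V) (k d : ℕ) :
    (S.E x ((S.g ^ (k + d)) x) - S.E x ((S.g ^ k) x)) ^ 2 ≤
      2 * S.E x x * (S.E x x - S.E x ((S.g ^ d) x)) := by
  have h1 : (S.g ^ (k + d)) x - (S.g ^ k) x = (S.g ^ k) ((S.g ^ d) x - x) := by
    rw [pow_add, Module.End.mul_apply, map_sub]
  have h2 := S.cs x ((S.g ^ k) ((S.g ^ d) x - x))
  rw [E_pow] at h2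
  have h3 : S.E ((S.g ^ d) x - x) ((S.g ^ d) x - x) =
      2 * (S.E x x - S.E x ((S.g ^ d) x)) := by
    have h4 := S.E_pow d x x
    have h5 := S.symm ((S.g ^ d) x) x
    simp only [map_sub, LinearMap.sub_apply]
    linarith
  rw [← map_sub, h1]
  rw [h3] at h2
  linarith

/-- The `w` with small product: `m • y = ∑ wᵢ`, nearly orthogonal petals `wᵢ - y`. -/
theorem exists_small {m : ℕ} (hm : 0 < m) (w : Fin m → V) (y w' : V)
    (hy : (m : ℝ) • y = ∑ i, w i) {e A κ ρ : ℝ} (hρ : 0 ≤ ρ) (hκ : 0 ≤ κ)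
    (hdiag : ∀ i, S.E (w i) (w i) = e)
    (hoff : ∀ i j, i ≠ j → |S.E (w i) (w j) - A| ≤ κ)
    (hsmall : S.E w' w' * (e - A + m * κ) ≤ m * ρ ^ 2) :
    ∃ i, |S.E (w i - y) w'| ≤ ρ := by
  by_contra hcon
  push Not at hcon
  set s : Fin m → ℝ := fun i => S.E (w i - y) w' with hs
  have hsum : ∑ i, s i = 0 := by
    have h1 : ∑ i, s i = S.E (∑ i, (w i - y)) w' := by
      rw [map_sum, LinearMap.sum_apply]
    rw [h1, Finset.sum_sub_distrib, ← hy, Finset.sum_const, Finset.card_univ, Fintype.card_fin,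
      ← Nat.cast_smul_eq_nsmul ℝ, sub_self]
    simp
  set T : V := ∑ i, s i • w i with hT
  have hTw : S.E T w' = ∑ i, s i ^ 2 := by
    have h1 : T = ∑ i, s i • (w i - y) := by
      simp only [smul_sub, Finset.sum_sub_distrib, ← Finset.sum_smul, hsum, zero_smul, sub_zero]
      rfl
    rw [h1, map_sum, LinearMap.sum_apply]
    refine Finset.sum_congr rfl fun i _ => ?_
    rw [map_smul, LinearMap.smul_apply, smul_eq_mul]
    simp only [hs]; ring
  have hTT : S.E T T ≤ (e - A + m * κ) * ∑ i, s i ^ 2 := by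
    have h1 : S.E T T = ∑ i, ∑ j, s i * s j * S.E (w i) (w j) := by
      rw [hT]
      simp only [map_sum, LinearMap.sum_apply, map_smul, LinearMap.smul_apply, smul_eq_mul,
        Finset.mul_sum]
      rw [Finset.sum_comm]
      refine Finset.sum_congr rfl fun i _ => Finset.sum_congr rfl fun j _ => ?_
      ring
    have h2 : ∀ i j, s i * s j * S.E (w i) (w j) ≤
        s i * s j * A + (if i = j then s i ^ 2 * (e - A) else 0) + |s i| * |s j| * κ := by
      intro i j
      by_cases hij : i = j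
      · subst hij
        rw [hdiag, if_pos rfl]
        have : 0 ≤ |s i| * |s i| * κ := by positivity
        nlinarith
      · rw [if_neg hij]
        have h3 := hoff i j hij
        have h4 : s i * s j * (S.E (w i) (w j) - A) ≤ |s i| * |s j| * κ := by
          calc s i * s j * (S.E (w i) (w j) - A) ≤ |s i * s j * (S.E (w i) (w j) - A)| :=
                le_abs_self _
            _ = |s i| * |s j| * |S.E (w i) (w j) - A| := by rw [abs_mul, abs_mul]
            _ ≤ |s i| * |s j| * κ := mul_le_mul_of_nonneg_left h3 (by positivity)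
        linarith
    have h5 : ∑ i, ∑ j, (s i * s j * A + (if i = j then s i ^ 2 * (e - A) else 0) +
        |s i| * |s j| * κ) = (∑ i, s i) * (∑ j, s j) * A + (∑ i, s i ^ 2) * (e - A) +
        (∑ i, |s i|) * (∑ j, |s j|) * κ := by
      simp only [Finset.sum_add_distrib]
      congr 1
      · congr 1
        · rw [Finset.sum_mul_sum, Finset.sum_mul]
          refine Finset.sum_congr rfl fun i _ => ?_
          rw [Finset.sum_mul]
        · rw [Finset.sum_mul]
          refine Finset.sum_congr rfl fun i _ => ?_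
          simp
      · rw [Finset.sum_mul_sum, Finset.sum_mul]
        refine Finset.sum_congr rfl fun i _ => ?_
        rw [Finset.sum_mul]
    have h6 : (∑ i, |s i|) * (∑ j, |s j|) ≤ m * ∑ i, s i ^ 2 := by
      have h7 := sq_sum_le_card_mul_sum_sq (s := (Finset.univ : Finset (Fin m)))
        (f := fun i => |s i|)
      simp only [Finset.card_univ, Fintype.card_fin, sq_abs] at h7
      rw [← sq]; exact h7
    have h8 : S.E T T ≤ (∑ i, s i) * (∑ j, s j) * A + (∑ i, s i ^ 2) * (e - A) +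
        (∑ i, |s i|) * (∑ j, |s j|) * κ := by
      rw [h1, ← h5]
      exact Finset.sum_le_sum fun i _ => Finset.sum_le_sum fun j _ => h2 i j
    rw [hsum] at h8
    nlinarith [mul_le_mul_of_nonneg_right h6 hκ]
  have hcs := S.cs T w'
  rw [hTw] at hcs
  set σ := ∑ i, s i ^ 2 with hσ
  have hσ1 : m * ρ ^ 2 < σ := by
    have h1 : ∑ _i : Fin m, ρ ^ 2 < ∑ i, s i ^ 2 := by
      refine Finset.sum_lt_sum_of_nonempty ⟨⟨0, hm⟩, Finset.mem_univ _⟩ fun i _ => ?_
      have h2 := hcon i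
      rw [← sq_abs (s i)]
      exact pow_lt_pow_left₀ h2 hρ two_ne_zero
    simpa using h1
  have hσ0 : 0 < σ := lt_of_le_of_lt (by positivity) hσ1
  have hE' := S.pos w'
  have h9 : σ ^ 2 ≤ (m * ρ ^ 2) * σ := by
    calc σ ^ 2 ≤ S.E T T * S.E w' w' := hcs
      _ ≤ ((e - A + m * κ) * σ) * S.E w' w' := mul_le_mul_of_nonneg_right hTT hE'
      _ = (S.E w' w' * (e - A + m * κ)) * σ := by ring
      _ ≤ (m * ρ ^ 2) * σ := mul_le_mul_of_nonneg_right hsmall hσ0.le
  have h10 : σ ≤ m * ρ ^ 2 := by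
    have : σ * σ ≤ (m * ρ ^ 2) * σ := by rw [← sq]; exact h9
    exact le_of_mul_le_mul_right this hσ0
  linarith

/-- **Final step.** -/
theorem final {A : Set ℝ} (hA : Sep A) (x : V) {P ε M : ℝ} {d : ℕ} (hd : 1 ≤ d)
    (hp0 : S.α x * S.β x ≠ 0) (hpP : |S.α x * S.β x| ≤ P) (hNI : S.NI A x ε M)
    (hε : ε ≤ 1 / 16) (hM : 4 * P + 4 * S.E x x + 1 < M)
    (hret : 2 * S.E x x * (S.E x x - S.E x ((S.g ^ d) x)) ≤ 1 / 64)
    (hbd : 2 * M * (S.b ^ d - 1) ≤ 1 / 8) : False := by
  set p := S.α x * S.β x with hp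
  set e := S.E x x with he
  have he0 : 0 ≤ e := S.pos x
  have hppos : 0 < |p| := abs_pos.mpr hp0
  have hP0 : 0 < P := lt_of_lt_of_le hppos hpP
  have hM0 : 0 < M := by linarith
  have hb1 := S.hb
  have hb0 := S.b_pos
  have hbd1 : 1 < S.b ^ d := one_lt_pow₀ hb1 (by omega)
  have hbd2 : S.b ^ d ≤ 2 := by
    have : S.b ^ d - 1 ≤ 1 / (16 * M) := by
      rw [le_div_iff₀ (by positivity)]; linarith
    have h2 : 1 / (16 * M) ≤ 1 := by
      rw [div_le_one (by positivity)]; linarith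
    linarith
  obtain ⟨z, hzA, hz⟩ := hNI 0 (by rw [pow_zero, mul_one]; linarith)
  -- propagation
  have hprop : ∀ i : ℕ, |p| * S.b ^ (i * d) ≤ M →
      |S.Q x ((S.g ^ (i * d)) x) - z| ≤ ε := by
    intro i
    induction i with
    | zero => intro _; simpa using hz
    | succ i ih =>
      intro hi
      have hmono : S.b ^ (i * d) ≤ S.b ^ ((i + 1) * d) :=
        pow_le_pow_right₀ hb1.le (Nat.mul_le_mul_right d (Nat.le_succ i))
      have hi' : |p| * S.b ^ (i * d) ≤ M :=
        le_trans (mul_le_mul_of_nonneg_left hmono hppos.le) hi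
      have h1 := ih hi'
      obtain ⟨z', hzA', hz'⟩ := hNI ((i + 1) * d) hi
      have h2 := S.E_step x (i * d) d
      have h3 : |S.E x ((S.g ^ (i * d + d)) x) - S.E x ((S.g ^ (i * d)) x)| ≤ 1 / 8 :=
        abs_le_of_sq_le_sq (by nlinarith) (by norm_num)
      have h4 : |S.Q x ((S.g ^ ((i + 1) * d)) x) - S.Q x ((S.g ^ (i * d)) x)| ≤ 1 / 4 := by
        rw [q_eq, q_eq, ← hp]
        have e1 : (i + 1) * d = i * d + d := by ring
        rw [e1]
        have h5 : |p * (S.b ^ (i * d + d) + (S.b⁻¹) ^ (i * d + d)) -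
            p * (S.b ^ (i * d) + (S.b⁻¹) ^ (i * d))| ≤ 1 / 8 := by
          rw [← mul_sub, abs_mul]
          have h6 : |S.b ^ (i * d + d) + (S.b⁻¹) ^ (i * d + d) -
              (S.b ^ (i * d) + (S.b⁻¹) ^ (i * d))| ≤ 2 * (S.b ^ (i * d) * (S.b ^ d - 1)) := by
            have e2 : S.b ^ (i * d + d) + (S.b⁻¹) ^ (i * d + d) -
                (S.b ^ (i * d) + (S.b⁻¹) ^ (i * d)) =
                S.b ^ (i * d) * (S.b ^ d - 1) - (S.b⁻¹) ^ (i * d) * (1 - (S.b⁻¹) ^ d) := by
              rw [pow_add, pow_add]; ring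
            rw [e2]
            have h7 : (S.b⁻¹) ^ (i * d) ≤ S.b ^ (i * d) := by
              rw [inv_pow]
              have : 1 ≤ S.b ^ (i * d) := one_le_pow₀ hb1.le
              exact le_trans (inv_le_one_of_one_le₀ this) this
            have h8 : 0 ≤ (S.b⁻¹) ^ (i * d) := by positivity
            have h9 : (S.b⁻¹) ^ d ≤ 1 := by
              rw [inv_pow]; exact inv_le_one_of_one_le₀ hbd1.le
            have h10 : 1 - (S.b⁻¹) ^ d ≤ S.b ^ d - 1 := by
              rw [inv_pow]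
              have h11 : S.b ^ d * (S.b ^ d)⁻¹ = 1 := mul_inv_cancel₀ (by positivity)
              have h12 : 0 < (S.b ^ d)⁻¹ := by positivity
              nlinarith [sq_nonneg (S.b ^ d - 1)]
            have h13 : 0 ≤ (S.b⁻¹) ^ (i * d) * (1 - (S.b⁻¹) ^ d) :=
              mul_nonneg h8 (by linarith)
            have h14 : (S.b⁻¹) ^ (i * d) * (1 - (S.b⁻¹) ^ d) ≤
                S.b ^ (i * d) * (S.b ^ d - 1) :=
              mul_le_mul h7 h10 (by linarith) (by positivity)
            have h15 : 0 ≤ S.b ^ (i * d) * (S.b ^ d - 1) := le_trans h13 h14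
            rw [abs_le]
            constructor <;> linarith
          have h16 : |p| * S.b ^ (i * d) * (S.b ^ d - 1) ≤ M * (S.b ^ d - 1) :=
            mul_le_mul_of_nonneg_right hi' (by linarith)
          calc |p| * _ ≤ |p| * (2 * (S.b ^ (i * d) * (S.b ^ d - 1))) :=
                mul_le_mul_of_nonneg_left h6 hppos.le
            _ = 2 * (|p| * S.b ^ (i * d) * (S.b ^ d - 1)) := by ring
            _ ≤ 2 * (M * (S.b ^ d - 1)) := by linarith
            _ ≤ 1 / 8 := by linarith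
        rw [abs_le] at h3 h5 ⊢
        constructor <;> linarith [h3.1, h3.2, h5.1, h5.2]
      have h5 : z' = z := by
        refine hA z' hzA' z hzA ?_
        rw [abs_le] at h1 hz' h4
        rw [abs_lt]
        constructor <;> linarith [h1.1, h1.2, hz'.1, hz'.2, h4.1, h4.2]
      rw [← h5]; exact hz'
  -- the last index
  have hex : ∃ i : ℕ, M < |p| * S.b ^ (i * d) := by
    obtain ⟨n, hn⟩ := pow_unbounded_of_one_lt (M / |p|) hbd1
    refine ⟨n, ?_⟩
    rw [div_lt_iff₀ hppos, ← pow_mul, mul_comm d n, mul_comm] at hn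
    exact hn
  classical
  set i₀ := Nat.find hex with hi₀
  have hi1 := Nat.find_spec hex
  rw [← hi₀] at hi1
  have hi0 : i₀ ≠ 0 := by
    intro h
    rw [h, zero_mul, pow_zero, mul_one] at hi1
    linarith
  obtain ⟨i, hi⟩ := Nat.exists_eq_succ_of_ne_zero hi0
  have hi2 : |p| * S.b ^ (i * d) ≤ M := by
    have := Nat.find_min hex (m := i) (by omega)
    exact not_lt.mp this
  rw [hi, Nat.succ_eq_add_one, Nat.add_mul, one_mul, pow_add] at hi1
  have h1 := hprop i hi2
  have h2 := S.E_le x (i * d)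
  rw [q_eq, ← hp] at h1
  rw [q_eq, ← hp] at hz
  have h3 := S.E_le x 0
  have h4 : M / 2 < |p| * S.b ^ (i * d) := by
    have h5 : |p| * (S.b ^ (i * d) * S.b ^ d) ≤ |p| * (S.b ^ (i * d) * 2) :=
      mul_le_mul_of_nonneg_left (mul_le_mul_of_nonneg_left hbd2 (by positivity)) hppos.le
    linarith
  have h5 : |p| * S.b ^ (i * d) ≤ |p * (S.b ^ (i * d) + (S.b⁻¹) ^ (i * d))| := by
    rw [abs_mul p (S.b ^ (i * d) + (S.b⁻¹) ^ (i * d))]
    refine mul_le_mul_of_nonneg_left ?_ hppos.le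
    rw [abs_of_pos (by positivity)]
    have : 0 < (S.b⁻¹) ^ (i * d) := by positivity
    linarith
  have h6 : |p * (S.b ^ 0 + (S.b⁻¹) ^ 0)| ≤ 2 * P := by
    rw [pow_zero, pow_zero, abs_mul]
    norm_num
    linarith
  set G := p * (S.b ^ (i * d) + (S.b⁻¹) ^ (i * d)) with hG
  set G0 := p * (S.b ^ 0 + (S.b⁻¹) ^ 0) with hG0
  have h7 : M / 2 < |G| := lt_of_lt_of_le h4 h5
  have h8 : |G| ≤ |G0| + 2 * e + 2 * ε := by
    have h9 : |G - G0| ≤ 2 * e + 2 * ε := by
      rw [abs_le] at h1 h2 h3 hz ⊢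
      constructor <;> linarith [h1.1, h1.2, h2.1, h2.2, h3.1, h3.2, hz.1, hz.2]
    have h10 := abs_sub_abs_le_abs_sub G G0
    linarith
  linarith

end Sys

end Pool.Agent.MP1f45fc.U
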