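import Pool.Agent.Lib.MP_1f45fc_nt.U.Geo

set_option autoImplicit false

/-!
# Theorem U over the integers of totally real fields of bounded degree

The values `B x (g ^ k x)` lie in the ring of integers of a number field `F` of degree at most `m`,
embedded into the real numbers by `τ`, and their images under all the other embeddings are bounded
(for a lattice of simplest type: the conjugate forms are definite).
-/

namespace Pool.Agent.MP1f45fc.U

open NumberField

universe w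

/-- an algebraic integer whose conjugates different from the given real one are bounded is not small -/
lemma nf_sep (F : Type*) [Field F] [NumberField F] (τ : F →+* ℝ) (m : ℕ)
    (hm : Module.finrank ℚ F ≤ m) (R : ℝ) (hR : 1 ≤ R) (d : 𝓞 F) (hd : d ≠ 0)
    (hb : ∀ σ : F →+* ℂ, σ ≠ Complex.ofRealHom.comp τ → ‖σ (d : F)‖ ≤ R) :
    (R ^ m)⁻¹ ≤ |τ (d : F)| := by
  classical
  have h1 : (1 : ℝ) ≤ ∏ σ : F →+* ℂ, ‖σ (d : F)‖ := by
    have e1 : ∏ σ : F →+* ℂ, ‖σ (d : F)‖ = |((Algebra.norm ℤ d : ℤ) : ℝ)| := by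
      have e2 := congrArg (fun z : ℂ => ‖z‖) (Algebra.norm_eq_prod_embeddings ℚ ℂ (d : F))
      simp only [norm_prod] at e2
      rw [Fintype.prod_equiv (RingHom.equivRatAlgHom (R := F) (S := ℂ))
        (fun σ : F →+* ℂ => ‖σ (d : F)‖) (fun φ : F →ₐ[ℚ] ℂ => ‖φ (d : F)‖)
        (fun σ => by simp [RingHom.equivRatAlgHom_apply])]
      rw [← e2, ← Algebra.coe_norm_int]
      simp
    rw [e1]
    have h2 : Algebra.norm ℤ d ≠ 0 := (Algebra.norm_ne_zero_iff).2 hd
    have h3 : 1 ≤ |Algebra.norm ℤ d| := Int.one_le_abs h2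
    calc (1 : ℝ) = ((1 : ℤ) : ℝ) := by norm_num
      _ ≤ ((|Algebra.norm ℤ d| : ℤ) : ℝ) := by exact_mod_cast h3
      _ = |((Algebra.norm ℤ d : ℤ) : ℝ)| := by push_cast; rfl
  rw [← Finset.mul_prod_erase Finset.univ (fun σ : F →+* ℂ => ‖σ (d : F)‖)
    (Finset.mem_univ (Complex.ofRealHom.comp τ))] at h1
  have h2 : ‖(Complex.ofRealHom.comp τ) (d : F)‖ = |τ (d : F)| := by
    rw [RingHom.comp_apply]
    change ‖((τ (d : F) : ℝ) : ℂ)‖ = _
    rw [Complex.norm_real, Real.norm_eq_abs]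
  rw [h2] at h1
  have h3 : ∏ σ ∈ Finset.univ.erase (Complex.ofRealHom.comp τ), ‖σ (d : F)‖ ≤ R ^ m := by
    calc ∏ σ ∈ Finset.univ.erase (Complex.ofRealHom.comp τ), ‖σ (d : F)‖
        ≤ ∏ _σ ∈ Finset.univ.erase (Complex.ofRealHom.comp τ), R :=
          Finset.prod_le_prod (fun σ _ => norm_nonneg _)
            (fun σ hσ => hb σ (Finset.ne_of_mem_erase hσ))
      _ = R ^ (Finset.univ.erase (Complex.ofRealHom.comp τ)).card := Finset.prod_const _
      _ ≤ R ^ m := by
          apply pow_le_pow_right₀ hR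
          calc (Finset.univ.erase (Complex.ofRealHom.comp τ)).card
              ≤ (Finset.univ : Finset (F →+* ℂ)).card := Finset.card_erase_le
            _ = Module.finrank ℚ F := by
                rw [Finset.card_univ]
                exact Embeddings.card F ℂ
            _ ≤ m := hm
  have h4 : 0 < R ^ m := by positivity
  have h5 : (1 : ℝ) ≤ |τ (d : F)| * R ^ m :=
    h1.trans (mul_le_mul_of_nonneg_left h3 (abs_nonneg _))
  rw [inv_le_iff_one_le_mul₀ h4]
  exact h5

/-- Theorem U for values in the integers of number fields of bounded degree. -/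
theorem geo_nf_of_main (hmain : MainU.{w}) (L : ℝ) (m : ℕ) :
    ∃ c : ℝ, 1 < c ∧ ∀ (F : Type) [Field F] [NumberField F] (τ : F →+* ℝ)
      (V : Type w) [AddCommGroup V] [Module ℝ V] (B : V →ₗ[ℝ] V →ₗ[ℝ] ℝ)
      (g : V →ₗ[ℝ] V) (b : ℝ) (u v x : V) (a : ℕ → 𝓞 F),
      Module.finrank ℚ F ≤ m →
      (∀ y z, B y z = B z y) → (∀ y z, B (g y) (g z) = B y z) →
      1 < b → g u = b • u → g v = b⁻¹ • v →
      (∀ y, B y u = 0 → B y v = 0 → 0 ≤ B y y) →
      B u v ≠ 0 → B x u ≠ 0 → B x v ≠ 0 →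
      |B x x| ≤ L → B x x - 2 * B x u * B x v / B u v ≤ L →
      (∀ k : ℕ, B x ((g ^ k) x) = τ (a k)) →
      (∀ k : ℕ, ∀ σ : F →+* ℂ, σ ≠ Complex.ofRealHom.comp τ → ‖σ (a k)‖ ≤ L) →
      c ≤ b := by
  have hR : (1 : ℝ) ≤ 2 * max L 1 := by
    have := le_max_right L 1
    linarith
  obtain ⟨c, hc, h⟩ := geo_of_main hmain L (((2 * max L 1) ^ m)⁻¹) (by positivity)
  refine ⟨c, hc, fun F _ _ τ V _ _ B g b u v x a hm hs hg hb hu hv hpos huv hxu hxv hN hE hval
    hconj => h V B g b u v x hs hg hb hu hv hpos huv hxu hxv hN hE fun k l hkl => ?_⟩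
  rw [hval, hval] at hkl ⊢
  have hd : a k - a l ≠ 0 := by
    intro h0
    exact hkl (by rw [sub_eq_zero.1 h0])
  have h1 := nf_sep F τ m hm (2 * max L 1) hR (a k - a l) hd (by
    intro σ hσ
    have e : ((a k - a l : 𝓞 F) : F) = (a k : F) - (a l : F) := by push_cast; rfl
    rw [e, map_sub]
    calc ‖σ (a k : F) - σ (a l : F)‖ ≤ ‖σ (a k : F)‖ + ‖σ (a l : F)‖ := norm_sub_le _ _
      _ ≤ L + L := add_le_add (hconj k σ hσ) (hconj l σ hσ)
      _ ≤ 2 * max L 1 := by
        have := le_max_left L 1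
        linarith)
  have e : ((a k - a l : 𝓞 F) : F) = (a k : F) - (a l : F) := by push_cast; rfl
  rw [e, map_sub] at h1
  exact h1

end Pool.Agent.MP1f45fc.U
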