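import Pool.Agent.Lib.MP_1f45fc_nt.U.Main
import Pool.Agent.Lib.MP_1f45fc_nt.U.GeoNF

set_option autoImplicit false

/-!
# Hyperbolic isometries of Lorentzian lattices that move a lattice vector by a bounded amount

A uniform lower bound for the translation length, in all dimensions at once.
-/

namespace Pool.Agent.MP1f45fc.U.Disp

open NumberField

universe w

/-- The difference trick: the product of the two eigencoordinates of `x - g x` has the opposite
sign. -/
lemma diff_trick {V : Type w} [AddCommGroup V] [Module ℝ V] {B : V →ₗ[ℝ] V →ₗ[ℝ] ℝ}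
    {g : V →ₗ[ℝ] V} {b : ℝ} {u v : V} (x : V)
    (hg : ∀ y z, B (g y) (g z) = B y z) (hb : 1 < b)
    (hu : g u = b • u) (hv : g v = b⁻¹ • v) :
    B (x - g x) u = (1 - b⁻¹) * B x u ∧ B (x - g x) v = (1 - b) * B x v := by
  have hb0 : b ≠ 0 := by positivity
  have h1 : B (g x) u = b⁻¹ * B x u := by
    have h2 := hg x u
    rw [hu, map_smul, smul_eq_mul] at h2
    rw [← h2, ← mul_assoc, inv_mul_cancel₀ hb0, one_mul]
  have h3 : B (g x) v = b * B x v := by
    have h2 := hg x v
    rw [hv, map_smul, smul_eq_mul] at h2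
    rw [← h2, ← mul_assoc, mul_inv_cancel₀ hb0, one_mul]
  constructor
  · rw [map_sub, LinearMap.sub_apply, h1]; ring
  · rw [map_sub, LinearMap.sub_apply, h3]; ring

lemma diff_value {V : Type w} [AddCommGroup V] [Module ℝ V] {B : V →ₗ[ℝ] V →ₗ[ℝ] ℝ}
    {g : V →ₗ[ℝ] V} (x : V) (hs : ∀ y z, B y z = B z y)
    (hg : ∀ y z, B (g y) (g z) = B y z) :
    B (x - g x) (x - g x) = 2 * (B x x - B x (g x)) ∧
    ∀ k : ℕ, B (x - g x) ((g ^ (k + 1)) (x - g x)) =
      2 * B x ((g ^ (k + 1)) x) - B x ((g ^ (k + 2)) x) - B x ((g ^ k) x) := by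
  constructor
  · simp only [map_sub, LinearMap.sub_apply, hg]
    rw [hs (g x) x]; ring
  · intro k
    have e1 : (g ^ (k + 1)) (g x) = (g ^ (k + 2)) x := by
      rw [← Module.End.mul_apply, ← pow_succ]
    have e2 : (g ^ (k + 1)) x = g ((g ^ k) x) := by
      rw [pow_succ', Module.End.mul_apply]
    have e3 : (g ^ (k + 2)) x = g ((g ^ (k + 1)) x) := by
      rw [pow_succ' g (k + 1), Module.End.mul_apply]
    have h1 : B (g x) ((g ^ (k + 1)) x) = B x ((g ^ k) x) := by rw [e2, hg]
    have h2 : B (g x) ((g ^ (k + 2)) x) = B x ((g ^ (k + 1)) x) := by rw [e3, hg]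
    simp only [map_sub, LinearMap.sub_apply]
    rw [e1, h1, h2]; ring

/-- **Uniform lower bound for the translation length** of an isometry `g` with an axis that moves
one vector `x` of bounded norm by a bounded amount, all products of `x` with its images being
integers of a number field of bounded degree with bounded other conjugates. -/
theorem bounded_displacement (L : ℝ) (m : ℕ) :
    ∃ c : ℝ, 1 < c ∧ ∀ (F : Type) [Field F] [NumberField F] (τ : F →+* ℝ)
      (V : Type w) [AddCommGroup V] [Module ℝ V] (B : V →ₗ[ℝ] V →ₗ[ℝ] ℝ)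
      (g : V →ₗ[ℝ] V) (b : ℝ) (u v x : V) (a : ℕ → 𝓞 F),
      Module.finrank ℚ F ≤ m →
      (∀ y z, B y z = B z y) → (∀ y z, B (g y) (g z) = B y z) →
      1 < b → g u = b • u → g v = b⁻¹ • v →
      (∀ y, B y u = 0 → B y v = 0 → 0 ≤ B y y) →
      B u v ≠ 0 → B x u ≠ 0 → B x v ≠ 0 →
      |B x x| ≤ L → |B x (g x)| ≤ L →
      (∀ k : ℕ, B x ((g ^ k) x) = τ (a k)) →
      (∀ k : ℕ, ∀ σ : F →+* ℂ, σ ≠ Complex.ofRealHom.comp τ → ‖σ (a k)‖ ≤ L) →
      c ≤ b := by
  obtain ⟨c, hc, h⟩ := geo_nf_of_main (fun L => main.{w} L) (4 * L) m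
  refine ⟨c, hc, fun F _ _ τ V _ _ B g b u v x a hm hs hg hb hu hv hpos huv hxu hxv hN hE hval
    hconj => ?_⟩
  have hL0 : 0 ≤ L := le_trans (abs_nonneg _) hN
  have hN' := abs_le.mp hN
  have hE' := abs_le.mp hE
  have hb0 : 0 < b := by positivity
  rcases lt_or_gt_of_ne (div_ne_zero (mul_ne_zero hxu hxv) huv) with hneg | hpos'
  · -- pass to x - g x
    obtain ⟨d1, d2⟩ := diff_trick x hg hb hu hv
    obtain ⟨v1, v2⟩ := diff_value x hs hg
    have hbi : b⁻¹ < 1 := inv_lt_one_of_one_lt₀ hb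
    have hs1 : 0 < B (x - g x) u * B (x - g x) v / B u v := by
      rw [d1, d2]
      have e : (1 - b⁻¹) * B x u * ((1 - b) * B x v) / B u v =
          (1 - b⁻¹) * (b - 1) * (-(B x u * B x v / B u v)) := by ring
      rw [e]
      exact mul_pos (mul_pos (by linarith) (by linarith)) (by linarith)
    refine h F τ V B g b u v (x - g x)
      (fun k => match k with
        | 0 => 2 * a 0 - 2 * a 1
        | k + 1 => 2 * a (k + 1) - a (k + 2) - a k) hm hs hg hb hu hv hpos huv ?_ ?_ ?_ ?_ ?_ ?_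
    · rw [d1]; exact mul_ne_zero (by linarith) hxu
    · rw [d2]; exact mul_ne_zero (by linarith) hxv
    · rw [v1, abs_le]; constructor <;> linarith
    · have e : 2 * B (x - g x) u * B (x - g x) v / B u v =
          2 * (B (x - g x) u * B (x - g x) v / B u v) := by ring
      rw [e, v1]; linarith
    · intro k
      cases k with
      | zero =>
        have h0 := hval 0
        have h1 := hval 1
        simp only [pow_zero, Module.End.one_apply, pow_one] at h0 h1 ⊢
        rw [v1, h0, h1]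
        simp only [map_sub, map_mul, map_ofNat]
        ring
      | succ k =>
        rw [v2, hval, hval, hval]
        simp only [map_sub, map_mul, map_ofNat]
    · intro k σ hσ
      have h2 : ‖(2 : ℂ)‖ = 2 := by norm_num
      cases k with
      | zero =>
        have h0 := hconj 0 σ hσ
        have h1 := hconj 1 σ hσ
        simp only [map_sub, map_mul, map_ofNat]
        calc ‖(2 : ℂ) * σ (a 0 : F) - 2 * σ (a 1 : F)‖
            ≤ ‖(2 : ℂ) * σ (a 0 : F)‖ + ‖(2 : ℂ) * σ (a 1 : F)‖ := norm_sub_le _ _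
          _ ≤ 4 * L := by rw [norm_mul, norm_mul, h2]; linarith
      | succ k =>
        have h0 := hconj k σ hσ
        have h1 := hconj (k + 1) σ hσ
        have h3 := hconj (k + 2) σ hσ
        simp only [map_sub, map_mul, map_ofNat]
        calc ‖(2 : ℂ) * σ (a (k + 1) : F) - σ (a (k + 2) : F) - σ (a k : F)‖
            ≤ ‖(2 : ℂ) * σ (a (k + 1) : F) - σ (a (k + 2) : F)‖ + ‖σ (a k : F)‖ :=
              norm_sub_le _ _
          _ ≤ ‖(2 : ℂ) * σ (a (k + 1) : F)‖ + ‖σ (a (k + 2) : F)‖ + ‖σ (a k : F)‖ := by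
              gcongr; exact norm_sub_le _ _
          _ ≤ 4 * L := by rw [norm_mul, h2]; linarith
  · refine h F τ V B g b u v x a hm hs hg hb hu hv hpos huv hxu hxv (by linarith) ?_ hval
      (fun k σ hσ => (hconj k σ hσ).trans (by linarith))
    have e : 2 * B x u * B x v / B u v = 2 * (B x u * B x v / B u v) := by ring
    rw [e]; linarith

end Pool.Agent.MP1f45fc.U.Disp
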