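import Pool.Agent.Lib.MP_1f45fc_nt.U.Core

set_option autoImplicit false

/-!
# Theorem U, geometric form, from the abstract form
-/

namespace Pool.Agent.MP1f45fc.U

universe w

section

variable {V : Type*} [AddCommGroup V] [Module ℝ V]

/-- The elliptic form, divided by `δ`. -/
noncomputable def ell (B : V →ₗ[ℝ] V →ₗ[ℝ] ℝ) (u v : V) (δ : ℝ) : V →ₗ[ℝ] V →ₗ[ℝ] ℝ :=
  LinearMap.mk₂ ℝ (fun x y => δ⁻¹ * (B x y - (B x u * B y v + B x v * B y u) / B u v))
    (fun x y z => by simp only [map_add, LinearMap.add_apply]; ring)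
    (fun c x y => by simp only [map_smul, LinearMap.smul_apply, smul_eq_mul]; ring)
    (fun x y z => by simp only [map_add, LinearMap.add_apply]; ring)
    (fun c x y => by simp only [map_smul, LinearMap.smul_apply, smul_eq_mul]; ring)

lemma ell_apply (B : V →ₗ[ℝ] V →ₗ[ℝ] ℝ) (u v : V) (δ : ℝ) (x y : V) :
    ell B u v δ x y = δ⁻¹ * (B x y - (B x u * B y v + B x v * B y u) / B u v) := by
  rw [ell, LinearMap.mk₂_apply]

/-- The system of an isometry with an axis. -/
noncomputable def geoSys (B : V →ₗ[ℝ] V →ₗ[ℝ] ℝ) (hs : ∀ x y, B x y = B y x)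
    (g : V →ₗ[ℝ] V) (hg : ∀ x y, B (g x) (g y) = B x y)
    {b : ℝ} (hb : 1 < b) {u v : V} (hu : g u = b • u) (hv : g v = b⁻¹ • v)
    (hpos : ∀ x, B x u = 0 → B x v = 0 → 0 ≤ B x x) (huv : B u v ≠ 0) {δ : ℝ} (hδ : 0 < δ) :
    Sys V where
  E := ell B u v δ
  α := B.flip u
  β := (δ⁻¹ * (B u v)⁻¹) • B.flip v
  g := g
  b := b
  symm := fun x y => by rw [ell_apply, ell_apply, hs x y]; ring
  pos := by
    have hb0 : b ≠ 0 := by positivity
    have huu : B u u = 0 := by
      have h1 := hg u u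
      rw [hu] at h1
      simp only [map_smul, LinearMap.smul_apply, smul_eq_mul] at h1
      have h2 : (b * b - 1) * B u u = 0 := by linear_combination h1
      rcases mul_eq_zero.mp h2 with h | h
      · exfalso; nlinarith
      · exact h
    have hvv : B v v = 0 := by
      have h1 := hg v v
      rw [hv] at h1
      simp only [map_smul, LinearMap.smul_apply, smul_eq_mul] at h1
      have h3 : b⁻¹ < 1 := inv_lt_one_of_one_lt₀ hb
      have h4 : 0 < b⁻¹ := by positivity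
      have h2 : (b⁻¹ * b⁻¹ - 1) * B v v = 0 := by linear_combination h1
      rcases mul_eq_zero.mp h2 with h | h
      · exfalso; nlinarith
      · exact h
    intro y
    have h1 := hpos (y - (B y v / B u v) • u - (B y u / B u v) • v) ?_ ?_
    · simp only [map_sub, map_smul, LinearMap.sub_apply, LinearMap.smul_apply, smul_eq_mul, huu,
        hvv, hs u y, hs v y, hs v u] at h1
      have e : B y y - B y v / B u v * B y u - B y u / B u v * B y v -
            B y v / B u v * (B y u - B y v / B u v * 0 - B y u / B u v * B u v) -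
            B y u / B u v * (B y v - B y v / B u v * B u v - B y u / B u v * 0)
          = B y y - (B y u * B y v + B y v * B y u) / B u v := by
        field_simp
        ring
      rw [e] at h1
      rw [ell_apply]
      exact mul_nonneg (inv_nonneg.2 hδ.le) h1
    · simp only [map_sub, map_smul, LinearMap.sub_apply, LinearMap.smul_apply, smul_eq_mul, huu,
        hs v u]
      field_simp
      ring
    · simp only [map_sub, map_smul, LinearMap.sub_apply, LinearMap.smul_apply, smul_eq_mul, hvv]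
      field_simp
      ring
  inv := by
    have hb0 : b ≠ 0 := by positivity
    have h1 : ∀ y, B (g y) u = b⁻¹ * B y u := fun y => by
      have h2 := hg y u
      rw [hu, map_smul, smul_eq_mul] at h2
      rw [← h2, ← mul_assoc, inv_mul_cancel₀ hb0, one_mul]
    have h3 : ∀ y, B (g y) v = b * B y v := fun y => by
      have h2 := hg y v
      rw [hv, map_smul, smul_eq_mul] at h2
      rw [← h2, ← mul_assoc, mul_inv_cancel₀ hb0, one_mul]
    intro x y
    have h4 : b⁻¹ * b = 1 := inv_mul_cancel₀ hb0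
    rw [ell_apply, ell_apply, hg, h1, h1, h3, h3]
    linear_combination (-(δ⁻¹) * (B x u * B y v + B x v * B y u) / B u v) * h4
  hα := by
    have hb0 : b ≠ 0 := by positivity
    intro y
    have h2 := hg y u
    rw [hu, map_smul, smul_eq_mul] at h2
    rw [LinearMap.flip_apply, LinearMap.flip_apply, ← h2, ← mul_assoc, inv_mul_cancel₀ hb0,
      one_mul]
  hβ := by
    have hb0 : b ≠ 0 := by positivity
    intro y
    have h2 := hg y v
    rw [hv, map_smul, smul_eq_mul] at h2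
    rw [LinearMap.smul_apply, LinearMap.smul_apply, LinearMap.flip_apply, LinearMap.flip_apply,
      ← h2, smul_eq_mul, smul_eq_mul]
    have h4 : b * b⁻¹ = 1 := mul_inv_cancel₀ hb0
    linear_combination (-(δ⁻¹ * (B u v)⁻¹ * B (g y) v)) * h4
  hb := hb

end

/-- The abstract form of Theorem U. -/
def MainU : Prop :=
  ∀ L : ℝ, ∃ c : ℝ, 1 < c ∧ ∀ (V : Type w) [AddCommGroup V] [Module ℝ V] (S : Sys V) (x : V),
    S.E x x ≤ L → S.α x * S.β x ≠ 0 → |S.α x * S.β x| ≤ L →
    (∀ k l : ℕ, |S.Q x ((S.g ^ k) x) - S.Q x ((S.g ^ l) x)| < 1 →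
      S.Q x ((S.g ^ k) x) = S.Q x ((S.g ^ l) x)) → c ≤ S.b

/-- Theorem U, geometric form. -/
theorem geo_of_main (hmain : MainU.{w}) (L δ : ℝ) (hδ : 0 < δ) :
    ∃ c : ℝ, 1 < c ∧ ∀ (V : Type w) [AddCommGroup V] [Module ℝ V] (B : V →ₗ[ℝ] V →ₗ[ℝ] ℝ)
      (g : V →ₗ[ℝ] V) (b : ℝ) (u v x : V),
      (∀ y z, B y z = B z y) → (∀ y z, B (g y) (g z) = B y z) →
      1 < b → g u = b • u → g v = b⁻¹ • v →
      (∀ y, B y u = 0 → B y v = 0 → 0 ≤ B y y) →
      B u v ≠ 0 → B x u ≠ 0 → B x v ≠ 0 →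
      |B x x| ≤ L → B x x - 2 * B x u * B x v / B u v ≤ L →
      (∀ k l : ℕ, B x ((g ^ k) x) ≠ B x ((g ^ l) x) →
        δ ≤ |B x ((g ^ k) x) - B x ((g ^ l) x)|) →
      c ≤ b := by
  obtain ⟨c, hc, h⟩ := hmain (L / δ)
  refine ⟨c, hc, fun V _ _ B g b u v x hs hg hb hu hv hpos huv hxu hxv hN hE hsep => ?_⟩
  have hE0 : 0 ≤ (geoSys B hs g hg hb hu hv hpos huv hδ).E x x :=
    (geoSys B hs g hg hb hu hv hpos huv hδ).pos x
  have e1 : (geoSys B hs g hg hb hu hv hpos huv hδ).E x x =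
      δ⁻¹ * (B x x - 2 * B x u * B x v / B u v) := by
    change ell B u v δ x x = _
    rw [ell_apply]
    ring
  have e2 : (geoSys B hs g hg hb hu hv hpos huv hδ).α x *
      (geoSys B hs g hg hb hu hv hpos huv hδ).β x = δ⁻¹ * (B x u * B x v / B u v) := by
    change B.flip u x * ((δ⁻¹ * (B u v)⁻¹) • B.flip v) x = _
    rw [LinearMap.smul_apply, LinearMap.flip_apply, LinearMap.flip_apply, smul_eq_mul]
    ring
  have e3 : ∀ y z, (geoSys B hs g hg hb hu hv hpos huv hδ).Q y z = δ⁻¹ * B y z := by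
    intro y z
    change ell B u v δ y z + B.flip u y * ((δ⁻¹ * (B u v)⁻¹) • B.flip v) z +
      ((δ⁻¹ * (B u v)⁻¹) • B.flip v) y * B.flip u z = _
    rw [LinearMap.smul_apply, LinearMap.smul_apply, LinearMap.flip_apply, LinearMap.flip_apply,
      LinearMap.flip_apply, LinearMap.flip_apply, smul_eq_mul, smul_eq_mul, ell_apply]
    ring
  have hδ' : 0 < δ⁻¹ := inv_pos.2 hδ
  have hL : L / δ = δ⁻¹ * L := div_eq_inv_mul L δ
  rw [e1] at hE0
  have hE1 : 0 ≤ B x x - 2 * B x u * B x v / B u v :=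
    nonneg_of_mul_nonneg_right hE0 hδ'
  refine h V (geoSys B hs g hg hb hu hv hpos huv hδ) x ?_ ?_ ?_ ?_
  · rw [e1, hL]
    exact mul_le_mul_of_nonneg_left hE hδ'.le
  · rw [e2]
    exact mul_ne_zero hδ'.ne' (div_ne_zero (mul_ne_zero hxu hxv) huv)
  · rw [e2, abs_mul, abs_of_pos hδ', hL]
    refine mul_le_mul_of_nonneg_left ?_ hδ'.le
    have h1 := abs_le.1 hN
    have h2 : 2 * B x u * B x v / B u v = 2 * (B x u * B x v / B u v) := by ring
    rw [h2] at hE hE1
    rw [abs_le]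
    constructor <;> linarith [h1.1, h1.2]
  · intro k l hkl
    rw [e3, e3] at hkl ⊢
    by_contra hne
    have hne' : B x ((g ^ k) x) ≠ B x ((g ^ l) x) := fun h => hne (by
      change δ⁻¹ * B x ((g ^ k) x) = δ⁻¹ * B x ((g ^ l) x)
      rw [h])
    have h1 := hsep k l hne'
    change |δ⁻¹ * B x ((g ^ k) x) - δ⁻¹ * B x ((g ^ l) x)| < 1 at hkl
    rw [← mul_sub, abs_mul, abs_of_pos hδ'] at hkl
    have h2 : δ⁻¹ * δ ≤ δ⁻¹ * |B x ((g ^ k) x) - B x ((g ^ l) x)| :=
      mul_le_mul_of_nonneg_left h1 hδ'.le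
    rw [inv_mul_cancel₀ hδ.ne'] at h2
    linarith

/-- Theorem U for integral values (lattices over the integers). -/
theorem geo_int_of_main (hmain : MainU.{w}) (L : ℝ) :
    ∃ c : ℝ, 1 < c ∧ ∀ (V : Type w) [AddCommGroup V] [Module ℝ V] (B : V →ₗ[ℝ] V →ₗ[ℝ] ℝ)
      (g : V →ₗ[ℝ] V) (b : ℝ) (u v x : V),
      (∀ y z, B y z = B z y) → (∀ y z, B (g y) (g z) = B y z) →
      1 < b → g u = b • u → g v = b⁻¹ • v →
      (∀ y, B y u = 0 → B y v = 0 → 0 ≤ B y y) →
      B u v ≠ 0 → B x u ≠ 0 → B x v ≠ 0 →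
      |B x x| ≤ L → B x x - 2 * B x u * B x v / B u v ≤ L →
      (∀ k : ℕ, ∃ m : ℤ, B x ((g ^ k) x) = m) →
      c ≤ b := by
  obtain ⟨c, hc, h⟩ := geo_of_main hmain L 1 one_pos
  refine ⟨c, hc, fun V _ _ B g b u v x hs hg hb hu hv hpos huv hxu hxv hN hE hint =>
    h V B g b u v x hs hg hb hu hv hpos huv hxu hxv hN hE fun k l hkl => ?_⟩
  obtain ⟨m, hm⟩ := hint k
  obtain ⟨n, hn⟩ := hint l
  rw [hm, hn] at hkl ⊢
  have h1 : m ≠ n := fun h => hkl (by rw [h])
  have h2 : 1 ≤ |m - n| := Int.one_le_abs (sub_ne_zero.2 h1)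
  calc (1 : ℝ) = ((1 : ℤ) : ℝ) := by norm_num
    _ ≤ ((|m - n| : ℤ) : ℝ) := by exact_mod_cast h2
    _ = |(m : ℝ) - n| := by push_cast; rfl

end Pool.Agent.MP1f45fc.U
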