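import Mathlib

/-!
# A finite Ramsey theorem for differences

If an integer sequence is bounded by `c` on `1, ..., R`, `R` large, then there are `m` numbers in
`0, ..., R` with all differences of the same value.
-/

set_option autoImplicit false

namespace Pool.Agent.MP1f45fc.U

/-- in a large set there is a long chain such that the colour of a pair only depends on its first
member -/
theorem ramsey_chain (C : Finset ℤ) (hC : C.Nonempty) (t : ℕ) :
    ∃ N : ℕ, ∀ (col : ℕ → ℕ → ℤ) (S : Finset ℕ), N ≤ S.card →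
      (∀ i ∈ S, ∀ j ∈ S, i < j → col i j ∈ C) →
      ∃ (x : ℕ → ℕ) (g : ℕ → ℤ), (∀ i, i < t → x i ∈ S) ∧ (∀ i, i < t → g i ∈ C) ∧
        ∀ i j, i < j → j < t → x i < x j ∧ col (x i) (x j) = g i := by
  induction t with
  | zero => exact ⟨0, fun _ _ _ _ => ⟨fun _ => 0, fun _ => 0, by simp, by simp, by simp⟩⟩
  | succ t ih =>
    obtain ⟨N, hN⟩ := ih
    refine ⟨C.card * N + 1, fun col S hS hcol => ?_⟩
    have hne : S.Nonempty := Finset.card_pos.1 (by omega)
    obtain ⟨a, ha, hmin⟩ : ∃ a ∈ S, ∀ b ∈ S, a ≤ b :=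
      ⟨S.min' hne, S.min'_mem hne, fun b hb => S.min'_le b hb⟩
    have hlt : ∀ b ∈ S.erase a, a < b := fun b hb =>
      lt_of_le_of_ne (hmin b (Finset.mem_of_mem_erase hb)) (Finset.ne_of_mem_erase hb).symm
    have hmaps : ∀ b ∈ S.erase a, col a b ∈ C := fun b hb =>
      hcol a ha b (Finset.mem_of_mem_erase hb) (hlt b hb)
    have hcard : C.card * N ≤ (S.erase a).card := by
      rw [Finset.card_erase_of_mem ha]; omega
    obtain ⟨k, hk, hfib⟩ :=
      Finset.exists_le_card_fiber_of_mul_le_card_of_maps_to hmaps hC hcard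
    obtain ⟨x, g, hx, hg, hxg⟩ := hN col ((S.erase a).filter fun b => col a b = k) hfib
      (fun i hi j hj hij => hcol i (Finset.mem_of_mem_erase (Finset.mem_filter.1 hi).1) j
        (Finset.mem_of_mem_erase (Finset.mem_filter.1 hj).1) hij)
    refine ⟨fun i => if i = 0 then a else x (i - 1), fun i => if i = 0 then k else g (i - 1),
      ?_, ?_, ?_⟩
    · intro i hi
      by_cases h0 : i = 0
      · simp [h0, ha]
      · simp only [h0, if_false]
        exact Finset.mem_of_mem_erase (Finset.mem_filter.1 (hx (i - 1) (by omega))).1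
    · intro i hi
      by_cases h0 : i = 0
      · simp [h0, hk]
      · simp only [h0, if_false]
        exact hg (i - 1) (by omega)
    · intro i j hij hj
      have hj0 : j ≠ 0 := by omega
      by_cases h0 : i = 0
      · simp only [h0, if_true, hj0, if_false]
        have h1 := Finset.mem_filter.1 (hx (j - 1) (by omega))
        exact ⟨hlt _ h1.1, h1.2⟩
      · simp only [h0, hj0, if_false]
        exact hxg (i - 1) (j - 1) (by omega) (by omega)

/-- finite Ramsey theorem for the colouring of pairs by a function of the difference -/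
theorem ramsey_diff (c m : ℕ) : ∃ R : ℕ, 1 ≤ R ∧ ∀ z : ℕ → ℤ,
    (∀ d, 1 ≤ d → d ≤ R → |z d| ≤ (c : ℤ)) →
    ∃ n : Fin m → ℕ, (∀ i, n i ≤ R) ∧ ∃ a : ℤ, ∀ i j, i < j → n i < n j ∧ z (n j - n i) = a := by
  obtain ⟨C, hCdef⟩ : ∃ C : Finset ℤ, C = Finset.Icc (-(c : ℤ)) c := ⟨_, rfl⟩
  have hC : C.Nonempty := ⟨0, by rw [hCdef, Finset.mem_Icc]; omega⟩
  obtain ⟨N, hN⟩ := ramsey_chain C hC (C.card * m)
  refine ⟨N + 1, by omega, fun z hz => ?_⟩
  obtain ⟨x, g, hx, hg, hxg⟩ := hN (fun i j => z (j - i)) (Finset.range (N + 2))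
    (by rw [Finset.card_range]; omega)
    (fun i hi j hj hij => by
      rw [Finset.mem_range] at hi hj
      have h1 := hz (j - i) (by omega) (by omega)
      rw [hCdef, Finset.mem_Icc]
      exact abs_le.1 h1)
  obtain ⟨a, ha, hfib⟩ := Finset.exists_le_card_fiber_of_mul_le_card_of_maps_to
    (s := Finset.range (C.card * m)) (t := C) (f := g) (n := m)
    (fun i hi => hg i (Finset.mem_range.1 hi)) hC (by rw [Finset.card_range])
  obtain ⟨F, hF, hFc⟩ := Finset.exists_subset_card_eq hfib
  refine ⟨fun i => x (F.orderEmbOfFin hFc i), fun i => ?_, a, fun i j hij => ?_⟩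
  · have h1 := Finset.mem_filter.1 (hF (F.orderEmbOfFin_mem hFc i))
    have h2 := hx _ (Finset.mem_range.1 h1.1)
    rw [Finset.mem_range] at h2
    show x (F.orderEmbOfFin hFc i) ≤ N + 1
    omega
  · have h1 := Finset.mem_filter.1 (hF (F.orderEmbOfFin_mem hFc i))
    have h2 := Finset.mem_filter.1 (hF (F.orderEmbOfFin_mem hFc j))
    have h3 : F.orderEmbOfFin hFc i < F.orderEmbOfFin hFc j :=
      (F.orderEmbOfFin hFc).lt_iff_lt.2 hij
    have h4 := hxg _ _ h3 (Finset.mem_range.1 h2.1)
    exact ⟨h4.1, h4.2.trans h1.2⟩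

end Pool.Agent.MP1f45fc.U
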