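import Pool.Agent.Lib.MP_1f45fc_nt.U.Step
import Pool.Agent.Lib.MP_1f45fc_nt.U.Ramsey

set_option autoImplicit false

/-!
# Theorem U, third part: the induction
-/

namespace Pool.Agent.MP1f45fc.U

universe u

/-- `b ^ R ≤ 1 + δ` for all `b` close to one. -/
lemma exists_b (R : ℕ) {δ : ℝ} (hδ : 0 < δ) : ∃ b₀ : ℝ, 1 < b₀ ∧ ∀ b : ℝ, 1 < b → b < b₀ →
    b ^ R ≤ 1 + δ := by
  have hc : ContinuousAt (fun b : ℝ => b ^ R) 1 := (continuous_pow R).continuousAt
  have h1 : ∀ᶠ b in nhds (1 : ℝ), b ^ R < 1 + δ := by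
    refine hc.eventually_lt continuousAt_const ?_
    simpa using hδ
  obtain ⟨η, hη, h⟩ := Metric.eventually_nhds_iff.mp h1
  refine ⟨1 + η, by linarith, fun b hb hb2 => (h ?_).le⟩
  rw [Real.dist_eq, abs_of_pos (by linarith)]
  linarith

/-- The claim proved by induction on `j` (a bound for twice the elliptic norm). -/
def Claim (j : ℕ) : Prop :=
  ∀ P : ℝ, 0 < P → ∃ ε M b₀ : ℝ, 0 < ε ∧ 0 < M ∧ 1 < b₀ ∧
    ∀ (V : Type u) [AddCommGroup V] [Module ℝ V] (S : Sys V) (A : Set ℝ) (x : V),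
      Sep A → S.b < b₀ → S.E x x ≤ j / 2 → S.α x * S.β x ≠ 0 → |S.α x * S.β x| ≤ P →
      ¬ S.NI A x ε M

lemma claim_zero : Claim.{u} 0 := by
  intro P hP
  obtain ⟨b₀, hb₀, hb⟩ := exists_b 1 (δ := 1 / (16 * (4 * P + 2))) (by positivity)
  refine ⟨1 / 16, 4 * P + 2, b₀, by norm_num, by positivity, hb₀, ?_⟩
  intro V _ _ S A x hA hSb he hp0 hpP hNI
  have h1 := hb S.b S.hb hSb
  have h2 : S.E x x = 0 := le_antisymm (by simpa using he) (S.pos x)
  refine S.final hA x (d := 1) le_rfl hp0 hpP hNI le_rfl (by rw [h2]; linarith) ?_ ?_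
  · rw [h2]; norm_num
  · have h3 : S.b ^ 1 - 1 ≤ 1 / (16 * (4 * P + 2)) := by linarith
    calc 2 * (4 * P + 2) * (S.b ^ 1 - 1) ≤ 2 * (4 * P + 2) * (1 / (16 * (4 * P + 2))) :=
          mul_le_mul_of_nonneg_left h3 (by positivity)
      _ = 1 / 8 := by field_simp; norm_num

lemma claim_succ (j : ℕ) (ih : Claim.{u} j) : Claim.{u} (j + 1) := by
  intro P hP
  obtain ⟨ε', M', b', hε', hM', hb', hcl⟩ := ih (2 * P) (by positivity)
  set Λ : ℝ := (j + 1 : ℕ) / 2 with hΛ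
  have hΛ0 : 0 < Λ := by rw [hΛ]; positivity
  -- return threshold
  set η : ℝ := 1 / (128 * (Λ + 1)) with hη
  have hη0 : 0 < η := by positivity
  -- petals
  set ρ : ℝ := ε' / 8 with hρ
  have hρ0 : 0 < ρ := by positivity
  obtain ⟨m₀, hm₀⟩ := exists_nat_ge (8 * (Λ + 1) ^ 2 / ρ ^ 2)
  set m : ℕ := m₀ + 3 with hm
  have hmρ : 8 * (Λ + 1) ^ 2 ≤ m * ρ ^ 2 := by
    rw [div_le_iff₀ (by positivity)] at hm₀
    have : (m₀ : ℝ) ≤ m := by rw [hm]; push_cast; linarith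
    nlinarith [sq_pos_of_pos hρ0]
  set κ : ℝ := ρ ^ 2 / (8 * (Λ + 1)) with hκ
  have hκ0 : 0 < κ := by positivity
  -- colours and Ramsey
  obtain ⟨c, hc⟩ := exists_nat_ge (Λ + 3 * P + 3)
  obtain ⟨R, hR1, hR⟩ := ramsey_diff c m
  -- size and error
  set M : ℝ := 4 * M' + 4 * P + 4 * Λ + 4 with hM
  have hM0 : 0 < M := by positivity
  set ε : ℝ := min (min (1 / 16) (η / 8)) (min (κ / 2) (ε' / 4)) with hε
  have hε0 : 0 < ε := by rw [hε]; positivity
  have hε1 : ε ≤ 1 / 16 := (min_le_left _ _).trans (min_le_left _ _)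
  have hε2 : ε ≤ η / 8 := (min_le_left _ _).trans (min_le_right _ _)
  have hε3 : ε ≤ κ / 2 := (min_le_right _ _).trans (min_le_left _ _)
  have hε4 : ε ≤ ε' / 4 := (min_le_right _ _).trans (min_le_right _ _)
  set δ : ℝ := min (min (1 / (16 * M)) (κ / (2 * P))) (min (η / (4 * P)) (ε' / (32 * (M' + 1))))
    with hδ
  have hδ0 : 0 < δ := by rw [hδ]; positivity
  have hδ1 : δ ≤ 1 / (16 * M) := (min_le_left _ _).trans (min_le_left _ _)
  have hδ2 : δ ≤ κ / (2 * P) := (min_le_left _ _).trans (min_le_right _ _)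
  have hδ3 : δ ≤ η / (4 * P) := (min_le_right _ _).trans (min_le_left _ _)
  have hδ4 : δ ≤ ε' / (32 * (M' + 1)) := (min_le_right _ _).trans (min_le_right _ _)
  have hδ1' : 2 * M * δ ≤ 1 / 8 := by
    calc 2 * M * δ ≤ 2 * M * (1 / (16 * M)) := mul_le_mul_of_nonneg_left hδ1 (by positivity)
      _ = 1 / 8 := by field_simp; norm_num
  have hδ2' : P * δ ≤ κ / 2 := by
    calc P * δ ≤ P * (κ / (2 * P)) := mul_le_mul_of_nonneg_left hδ2 hP.le
      _ = κ / 2 := by field_simp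
  have hδ3' : P * δ ≤ η / 4 := by
    calc P * δ ≤ P * (η / (4 * P)) := mul_le_mul_of_nonneg_left hδ3 hP.le
      _ = η / 4 := by field_simp
  have hδ4' : 8 * M' * δ ≤ ε' / 4 := by
    calc 8 * M' * δ ≤ 8 * (M' + 1) * δ := by nlinarith
      _ ≤ 8 * (M' + 1) * (ε' / (32 * (M' + 1))) := mul_le_mul_of_nonneg_left hδ4 (by positivity)
      _ = ε' / 4 := by field_simp; norm_num
  have hMge : (4 : ℝ) ≤ M := by rw [hM]; nlinarith
  have hδle : δ ≤ 1 := by nlinarith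
  have hη1 : η ≤ 1 / 128 := by
    rw [hη]
    apply one_div_le_one_div_of_le (by norm_num)
    nlinarith
  obtain ⟨b₀, hb₀, hbR⟩ := exists_b R hδ0
  refine ⟨ε, M, min b₀ b', hε0, hM0, lt_min hb₀ hb', ?_⟩
  intro V _ _ S A x hA hSb he hp0 hpP hNI
  have hbR' := hbR S.b S.hb (lt_of_lt_of_le hSb (min_le_left _ _))
  have hSb' : S.b < b' := lt_of_lt_of_le hSb (min_le_right _ _)
  have hb1 := S.hb
  have hbd : ∀ d ≤ R, S.b ^ d ≤ 1 + δ := fun d hd => (pow_le_pow_right₀ hb1.le hd).trans hbR'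
  have he0 := S.pos x
  have heΛ : S.E x x ≤ Λ := he
  -- no return
  have hnoret : ∀ d, 1 ≤ d → d ≤ R → η < S.E x x - S.E x ((S.g ^ d) x) := by
    intro d hd1 hdR
    by_contra hcon
    push Not at hcon
    refine S.final hA x hd1 hp0 hpP hNI hε1 (by rw [hM]; linarith) ?_ ?_
    · have h1 : 0 ≤ S.E x x - S.E x ((S.g ^ d) x) := by
        have := (abs_le.mp (S.E_le x d)).2
        linarith
      calc 2 * S.E x x * (S.E x x - S.E x ((S.g ^ d) x)) ≤ 2 * (Λ + 1) * η :=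
            mul_le_mul (by linarith) hcon h1 (by positivity)
        _ = 1 / 64 := by rw [hη]; field_simp; norm_num
    · have := hbd d hdR
      have h2 : 2 * M * (S.b ^ d - 1) ≤ 2 * M * δ :=
        mul_le_mul_of_nonneg_left (by linarith) (by positivity)
      linarith
  -- the near values
  have hppos : 0 < |S.α x * S.β x| := abs_pos.mpr hp0
  have hval : ∀ d ≤ R, ∃ z ∈ A, |S.Q x ((S.g ^ d) x) - z| ≤ ε := by
    intro d hd
    refine hNI d ?_
    have h1 : |S.α x * S.β x| * S.b ^ d ≤ P * 2 :=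
      mul_le_mul hpP ((hbd d hd).trans (by linarith)) (by positivity) hP.le
    rw [hM]; linarith
  choose! z hzA hz using hval
  have hqd : ∀ d ≤ R, |S.α x * S.β x * (S.b ^ d + (S.b⁻¹) ^ d - 2)| ≤ P * δ := by
    intro d hd
    obtain ⟨h2, h3⟩ := S.G_small d R hd hbR'
    rw [abs_mul, abs_of_nonneg h2]
    exact mul_le_mul hpP h3 h2 hP.le
  have hz0 : ∀ d, 1 ≤ d → d ≤ R → 1 ≤ z 0 - z d ∧
      S.E x ((S.g ^ d) x) ≤ S.E x x - 3 / 4 := by
    intro d hd1 hdR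
    have h1 := hnoret d hd1 hdR
    have h2 := hz 0 (Nat.zero_le _)
    have h3 := hz d hdR
    have h4 := hqd d hdR
    rw [Sys.q_eq] at h2 h3
    simp only [pow_zero, Module.End.one_apply] at h2
    rw [abs_le] at h2 h3 h4
    have h5 : 0 < z 0 - z d := by linarith [h2.1, h2.2, h3.1, h3.2, h4.1, h4.2]
    have h6 : 1 ≤ z 0 - z d := by
      by_contra hlt
      push Not at hlt
      have := hA _ (hzA 0 (Nat.zero_le _)) _ (hzA d hdR) (by rw [abs_of_pos h5]; exact hlt)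
      linarith
    exact ⟨h6, by linarith [h2.1, h2.2, h3.1, h3.2, h4.1, h4.2]⟩
  -- Ramsey
  obtain ⟨n, hn, a, hna⟩ := hR (fun d => ⌊z d⌋) (fun d hd1 hdR => by
    have h3 := hz d hdR
    have h4 := hqd d hdR
    have h5 := S.E_le x d
    rw [Sys.q_eq] at h3
    rw [abs_le] at h3 h4 h5
    have h6 := abs_le.mp hpP
    have h7 : |z d| ≤ Λ + 3 * P + 1 := by
      rw [abs_le]
      constructor <;> linarith [h3.1, h3.2, h4.1, h4.2, h5.1, h5.2, h6.1, h6.2]
    rw [abs_le] at h7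
    have h8 := Int.floor_le (z d)
    have h9 := Int.lt_floor_add_one (z d)
    rw [abs_le]
    constructor
    · have : (-(c : ℝ)) ≤ ⌊z d⌋ := by linarith [h7.1, h7.2]
      exact_mod_cast this
    · have : ((⌊z d⌋ : ℤ) : ℝ) ≤ c := by linarith [h7.1, h7.2]
      exact_mod_cast this)
  have h0m : 0 < m := by omega
  have hlt01 : (⟨0, h0m⟩ : Fin m) < ⟨1, by omega⟩ := Fin.mk_lt_mk.mpr Nat.zero_lt_one
  have hdiff : ∀ i k, i < k → 1 ≤ n k - n i ∧ n k - n i ≤ R := fun i k hik => by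
    have h1 := (hna i k hik).1
    have h2 := hn k
    omega
  set d₀ := n ⟨1, by omega⟩ - n ⟨0, h0m⟩ with hd₀
  have hsame : ∀ i k, i < k → z (n k - n i) = z d₀ := by
    intro i k hik
    have h1 := (hna i k hik).2
    have h2 := (hna _ _ hlt01).2
    have h3 : ⌊z (n k - n i)⌋ = ⌊z d₀⌋ := h1.trans h2.symm
    refine hA _ (hzA _ (hdiff i k hik).2) _ (hzA _ (hdiff _ _ hlt01).2) ?_
    exact Int.abs_sub_lt_one_of_floor_eq_floor h3
  obtain ⟨y, hy1, hy2, hy3, hy4⟩ := S.sunflower (A := A) x (P := P) (ε := ε) (M := M) (ε' := ε')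
    (M' := M') (κ := κ) (ρ := ρ) (δ := δ) (Λ := Λ) (a := z d₀) (m := m) (R := R) (by omega) n hn
    (fun i k hik => (hna i k hik).1)
    (fun i k hik => by
      rw [← hsame i k hik]
      exact hz _ (hdiff i k hik).2)
    heΛ hp0 hpP hδ0.le hδle hbR' hNI
    (fun i k hik => (hz0 _ (hdiff i k hik).1 (hdiff i k hik).2).2)
    hM'.le (by rw [hM]; linarith) hρ0.le (by linarith) hε0.le
    (by
      have h1 : Λ * ((m + 1) * κ) ≤ 2 * m * (ρ ^ 2 / 8) := by
        have h2 : Λ * κ ≤ ρ ^ 2 / 8 := by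
          rw [hκ, mul_div_assoc']
          rw [div_le_iff₀ (by positivity)]
          nlinarith [sq_pos_of_pos hρ0]
        have h3 : ((m : ℝ) + 1) ≤ 2 * m := by
          have : (1 : ℝ) ≤ m := by exact_mod_cast h0m
          linarith
        calc Λ * ((m + 1) * κ) = (m + 1) * (Λ * κ) := by ring
          _ ≤ 2 * m * (ρ ^ 2 / 8) := mul_le_mul h3 h2 (by positivity) (by positivity)
      nlinarith)
    (by rw [hρ]; linarith)
  refine hcl V S A y hA hSb' ?_ hy2 (by linarith) hy4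
  have h1 : S.E x x ≤ ((j + 1 : ℕ) : ℝ) / 2 := he
  push_cast at h1
  linarith

lemma claim_all (j : ℕ) : Claim.{u} j := by
  induction j with
  | zero => exact claim_zero
  | succ j ih => exact claim_succ j ih

/-- **Theorem U**, abstract form. -/
theorem main (L : ℝ) : ∃ c : ℝ, 1 < c ∧ ∀ (V : Type u) [AddCommGroup V] [Module ℝ V]
    (S : Sys V) (x : V), S.E x x ≤ L → S.α x * S.β x ≠ 0 → |S.α x * S.β x| ≤ L →
    (∀ k l : ℕ, |S.Q x ((S.g ^ k) x) - S.Q x ((S.g ^ l) x)| < 1 →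
      S.Q x ((S.g ^ k) x) = S.Q x ((S.g ^ l) x)) → c ≤ S.b := by
  obtain ⟨j, hj⟩ := exists_nat_ge (2 * L)
  obtain ⟨ε, M, b₀, hε, hM, hb₀, h⟩ := claim_all.{u} j (max L 1) (by positivity)
  refine ⟨b₀, hb₀, fun V _ _ S x he hp0 hpL hsep => ?_⟩
  by_contra hcon
  push Not at hcon
  refine h V S (Set.range fun k : ℕ => S.Q x ((S.g ^ k) x)) x ?_ hcon (by linarith) hp0
    (hpL.trans (le_max_left _ _)) ?_
  · rintro _ ⟨k, rfl⟩ _ ⟨l, rfl⟩ hlt
    exact hsep k l hlt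
  · intro k _
    exact ⟨_, ⟨k, rfl⟩, by simp [hε.le]⟩

end Pool.Agent.MP1f45fc.U
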