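import Pool.Agent.Lib.MP_1f45fc_nt.U.Core

set_option autoImplicit false

/-!
# Theorem U, second part: the sunflower step
-/

namespace Pool.Agent.MP1f45fc.U

variable {V : Type*} [AddCommGroup V] [Module ℝ V]

namespace Sys

variable (S : Sys V)

lemma E_pow_lt (x : V) {i j : ℕ} (h : i ≤ j) :
    S.E ((S.g ^ i) x) ((S.g ^ j) x) = S.E x ((S.g ^ (j - i)) x) := by
  have e : (S.g ^ j) x = (S.g ^ i) ((S.g ^ (j - i)) x) := by
    rw [← Module.End.mul_apply, ← pow_add, Nat.add_sub_cancel' h]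
  rw [e, E_pow]

lemma Q_pow_dist (x : V) (i j : ℕ) :
    S.Q ((S.g ^ i) x) ((S.g ^ j) x) = S.Q x ((S.g ^ (Nat.dist i j)) x) := by
  rcases le_total i j with h | h
  · have e : (S.g ^ j) x = (S.g ^ i) ((S.g ^ (j - i)) x) := by
      rw [← Module.End.mul_apply, ← pow_add, Nat.add_sub_cancel' h]
    rw [e, Q_pow, Nat.dist_eq_sub_of_le h]
  · have e : (S.g ^ i) x = (S.g ^ j) ((S.g ^ (i - j)) x) := by
      rw [← Module.End.mul_apply, ← pow_add, Nat.add_sub_cancel' h]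
    rw [e, Q_symm, Q_pow, Nat.dist_eq_sub_of_le_right h]

lemma G_small (n R : ℕ) {δ : ℝ} (hn : n ≤ R) (hR : S.b ^ R ≤ 1 + δ) :
    0 ≤ S.b ^ n + (S.b⁻¹) ^ n - 2 ∧ S.b ^ n + (S.b⁻¹) ^ n - 2 ≤ δ := by
  have hb := S.hb
  have h1 : 1 ≤ S.b ^ n := one_le_pow₀ hb.le
  have h2 : S.b ^ n ≤ S.b ^ R := pow_le_pow_right₀ hb.le hn
  have h3 : (S.b⁻¹) ^ n * S.b ^ n = 1 := by
    rw [← mul_pow, inv_mul_cancel₀ S.b_pos.ne', one_pow]
  have h4 : (S.b⁻¹) ^ n ≤ 1 := by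
    rw [inv_pow]; exact inv_le_one_of_one_le₀ h1
  have h5 : 0 < (S.b⁻¹) ^ n := by have := S.b_pos; positivity
  constructor
  · nlinarith [mul_nonneg (sub_nonneg.mpr h1) (sub_nonneg.mpr h4)]
  · linarith

/-- **Sunflower step.** -/
theorem sunflower {A : Set ℝ} (x : V) {P ε M ε' M' κ ρ δ Λ a : ℝ} {m R : ℕ}
    (hm : 3 ≤ m) (n : Fin m → ℕ) (hn : ∀ i, n i ≤ R) (hlt : ∀ i j, i < j → n i < n j)
    (ha : ∀ i j, i < j → |S.Q x ((S.g ^ (n j - n i)) x) - a| ≤ ε)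
    (he : S.E x x ≤ Λ) (hp0 : S.α x * S.β x ≠ 0) (hpP : |S.α x * S.β x| ≤ P)
    (hδ0 : 0 ≤ δ) (hδ1 : δ ≤ 1) (hbR : S.b ^ R ≤ 1 + δ) (hNI : S.NI A x ε M)
    (hdec : ∀ i j, i < j → S.E x ((S.g ^ (n j - n i)) x) ≤ S.E x x - 3 / 4)
    (hM' : 0 ≤ M') (hM : 4 * M' ≤ M) (hρ0 : 0 ≤ ρ) (hκ : ε + P * δ ≤ κ) (hε0 : 0 ≤ ε)
    (hρ : Λ * (2 * Λ + (m + 1) * κ) ≤ m * ρ ^ 2)
    (hε' : 2 * ρ + 8 * M' * δ + ε ≤ ε') :
    ∃ y, S.E y y ≤ S.E x x - 1 / 2 ∧ S.α y * S.β y ≠ 0 ∧ |S.α y * S.β y| ≤ 2 * P ∧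
      S.NI A y ε' M' := by
  have hb := S.hb
  have hb0 := S.b_pos
  set p := S.α x * S.β x with hp
  set e := S.E x x with hee
  have he0 : 0 ≤ e := S.pos x
  have hΛ0 : 0 ≤ Λ := he0.trans he
  have hppos : 0 < |p| := abs_pos.mpr hp0
  have hP0 : 0 < P := lt_of_lt_of_le hppos hpP
  have hκ0 : 0 ≤ κ := by
    have : 0 ≤ P * δ := by positivity
    linarith
  have hm0 : (0 : ℝ) < m := by
    have : 0 < m := by omega
    exact_mod_cast this
  have hm3 : (3 : ℝ) ≤ m := by exact_mod_cast hm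
  set w : Fin m → V := fun i => (S.g ^ (n i)) x with hw
  set y : V := (m : ℝ)⁻¹ • ∑ i, w i with hy
  have hmy : (m : ℝ) • y = ∑ i, w i := by
    rw [hy, smul_smul, mul_inv_cancel₀ hm0.ne', one_smul]
  have hdiag : ∀ i, S.E (w i) (w i) = e := fun i => S.E_pow (n i) x x
  have hoff1 : ∀ i j, i < j → S.E (w i) (w j) = S.E x ((S.g ^ (n j - n i)) x) :=
    fun i j hij => S.E_pow_lt x (hlt i j hij).le
  -- the norm of y
  have hEy : S.E y y ≤ e - 1 / 2 := by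
    have h1 : S.E y y = (m : ℝ)⁻¹ * ((m : ℝ)⁻¹ * ∑ i, ∑ j, S.E (w i) (w j)) := by
      have h1a : S.E y y = (m : ℝ)⁻¹ * ((m : ℝ)⁻¹ * S.E (∑ i, w i) (∑ j, w j)) := by
        rw [hy]; simp only [map_smul, LinearMap.smul_apply, smul_eq_mul]
      have h1b : S.E (∑ i, w i) (∑ j, w j) = ∑ i, ∑ j, S.E (w i) (w j) := by
        simp only [map_sum, LinearMap.sum_apply]
        exact Finset.sum_comm
      rw [h1a, h1b]
    have h2 : ∀ i j, S.E (w i) (w j) ≤ (e - 3 / 4) + if i = j then 3 / 4 else 0 := by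
      intro i j
      rcases lt_trichotomy i j with h | h | h
      · rw [if_neg h.ne, hoff1 i j h]
        linarith [hdec i j h]
      · subst h
        rw [if_pos rfl, hdiag]; linarith
      · rw [if_neg h.ne', S.symm, hoff1 j i h]
        linarith [hdec j i h]
    have h3 : ∑ i, ∑ j, S.E (w i) (w j) ≤ (m : ℝ) * (m * (e - 3 / 4)) + m * (3 / 4) := by
      calc ∑ i, ∑ j, S.E (w i) (w j) ≤
          ∑ i : Fin m, ∑ j : Fin m, ((e - 3 / 4) + if i = j then 3 / 4 else 0) :=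
            Finset.sum_le_sum fun i _ => Finset.sum_le_sum fun j _ => h2 i j
        _ = (m : ℝ) * (m * (e - 3 / 4)) + m * (3 / 4) := by
            simp only [Finset.sum_add_distrib, Finset.sum_const, Finset.card_univ,
              Fintype.card_fin, nsmul_eq_mul, Finset.sum_ite_eq, Finset.mem_univ, if_true]
    rw [h1, ← mul_assoc]
    have h4 : (m : ℝ)⁻¹ * (m : ℝ)⁻¹ * ∑ i, ∑ j, S.E (w i) (w j) ≤
        (m : ℝ)⁻¹ * (m : ℝ)⁻¹ * ((m : ℝ) * (m * (e - 3 / 4)) + m * (3 / 4)) :=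
      mul_le_mul_of_nonneg_left h3 (by positivity)
    have h5 : (m : ℝ)⁻¹ * (m : ℝ)⁻¹ * ((m : ℝ) * (m * (e - 3 / 4)) + m * (3 / 4)) =
        (e - 3 / 4) + (m : ℝ)⁻¹ * (3 / 4) := by
      field_simp
    have h6 : (m : ℝ)⁻¹ ≤ 1 / 3 := by
      rw [inv_le_comm₀ hm0 (by norm_num)]
      norm_num
      linarith
    linarith
  -- the functionals of y
  set a1 : ℝ := (m : ℝ)⁻¹ * ∑ i, (S.b⁻¹) ^ (n i) with ha1
  set b1 : ℝ := (m : ℝ)⁻¹ * ∑ i, S.b ^ (n i) with hb1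
  have hαy : S.α y = a1 * S.α x := by
    rw [hy, map_smul, map_sum, smul_eq_mul, ha1, mul_assoc, Finset.sum_mul]
    congr 1
    exact Finset.sum_congr rfl fun i _ => S.α_pow (n i) x
  have hβy : S.β y = b1 * S.β x := by
    rw [hy, map_smul, map_sum, smul_eq_mul, hb1, mul_assoc, Finset.sum_mul]
    congr 1
    exact Finset.sum_congr rfl fun i _ => S.β_pow (n i) x
  have hbn : ∀ i, 1 ≤ S.b ^ (n i) ∧ S.b ^ (n i) ≤ 1 + δ := fun i =>
    ⟨one_le_pow₀ hb.le, (pow_le_pow_right₀ hb.le (hn i)).trans hbR⟩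
  have hbi : ∀ i, 1 - δ ≤ (S.b⁻¹) ^ (n i) ∧ (S.b⁻¹) ^ (n i) ≤ 1 ∧
      1 ≤ (1 + δ) * (S.b⁻¹) ^ (n i) := fun i => by
    obtain ⟨h1, h2⟩ := hbn i
    have h3 : (S.b⁻¹) ^ (n i) * S.b ^ (n i) = 1 := by
      rw [← mul_pow, inv_mul_cancel₀ hb0.ne', one_pow]
    have h5 : 0 < (S.b⁻¹) ^ (n i) := by positivity
    have h4 : (S.b⁻¹) ^ (n i) ≤ 1 := by
      rw [inv_pow]; exact inv_le_one_of_one_le₀ h1
    refine ⟨?_, h4, ?_⟩
    · nlinarith
    · nlinarith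
  have hconst : ∀ c : ℝ, (m : ℝ)⁻¹ * ∑ _i : Fin m, c = c := fun c => by
    simp only [Finset.sum_const, Finset.card_univ, Fintype.card_fin, nsmul_eq_mul]
    field_simp
  have hminv : 0 ≤ (m : ℝ)⁻¹ := by positivity
  have ha1l : 1 - δ ≤ a1 := by
    rw [← hconst (1 - δ)]
    exact mul_le_mul_of_nonneg_left (Finset.sum_le_sum fun i _ => (hbi i).1) hminv
  have ha1u : a1 ≤ 1 := by
    rw [← hconst 1]
    exact mul_le_mul_of_nonneg_left (Finset.sum_le_sum fun i _ => (hbi i).2.1) hminv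
  have ha1m : 1 ≤ (1 + δ) * a1 := by
    have h1 : (m : ℝ)⁻¹ * ∑ _i : Fin m, (1 : ℝ) ≤
        (m : ℝ)⁻¹ * ∑ i, (1 + δ) * (S.b⁻¹) ^ (n i) :=
      mul_le_mul_of_nonneg_left (Finset.sum_le_sum fun i _ => (hbi i).2.2) hminv
    rw [hconst, ← Finset.mul_sum] at h1
    rw [ha1]; linarith
  have hb1l : 1 ≤ b1 := by
    rw [← hconst 1]
    exact mul_le_mul_of_nonneg_left (Finset.sum_le_sum fun i _ => (hbn i).1) hminv
  have hb1u : b1 ≤ 1 + δ := by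
    rw [← hconst (1 + δ)]
    exact mul_le_mul_of_nonneg_left (Finset.sum_le_sum fun i _ => (hbn i).2) hminv
  have ha1pos : 0 < a1 := by
    by_contra h
    push Not at h
    nlinarith
  have hpy : S.α y * S.β y = p * (a1 * b1) := by rw [hαy, hβy, hp]; ring
  set rX := a1 * b1 with hrX
  have hr0 : 0 < rX := by positivity
  have hru : rX ≤ 1 + δ := by
    calc rX ≤ 1 * (1 + δ) := mul_le_mul ha1u hb1u (by linarith) (by norm_num)
      _ = 1 + δ := one_mul _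
  have hrl : 1 - δ ≤ rX := by
    have : a1 * 1 ≤ a1 * b1 := mul_le_mul_of_nonneg_left hb1l ha1pos.le
    linarith
  have hrm : 1 ≤ (1 + δ) * rX := by
    have : a1 * 1 ≤ a1 * b1 := mul_le_mul_of_nonneg_left hb1l ha1pos.le
    nlinarith
  refine ⟨y, hEy, ?_, ?_, ?_⟩
  · rw [hpy]; exact mul_ne_zero hp0 hr0.ne'
  · rw [hpy, abs_mul, abs_of_pos hr0]
    have : |p| * rX ≤ P * 2 := mul_le_mul hpP (by linarith) hr0.le hP0.le
    linarith
  -- near-integrality of y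
  intro k hk
  rw [hpy, abs_mul, abs_of_pos hr0] at hk
  have hbk : 0 < S.b ^ k := by positivity
  have hbk1 : 1 ≤ S.b ^ k := one_le_pow₀ hb.le
  have hpk : |p| * S.b ^ k ≤ 2 * M' := by
    have h1 : |p| * S.b ^ k * 1 ≤ |p| * S.b ^ k * ((1 + δ) * rX) :=
      mul_le_mul_of_nonneg_left hrm (by positivity)
    have h2 : |p| * S.b ^ k * ((1 + δ) * rX) = (1 + δ) * (|p| * rX * S.b ^ k) := by ring
    have h3 : (1 + δ) * (|p| * rX * S.b ^ k) ≤ 2 * M' :=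
      mul_le_mul (by linarith) hk (by positivity) (by norm_num)
    linarith
  -- center
  set A0 : ℝ := a - 2 * p with hA0
  have hoffκ : ∀ i j, i ≠ j → |S.E (w i) (w j) - A0| ≤ κ := by
    have key : ∀ i j, i < j → |S.E (w i) (w j) - A0| ≤ κ := by
      intro i j hij
      rw [hoff1 i j hij]
      have h1 := ha i j hij
      rw [q_eq, ← hp] at h1
      obtain ⟨h2, h3⟩ := S.G_small (n j - n i) R ((Nat.sub_le _ _).trans (hn j)) hbR
      set γ := S.b ^ (n j - n i) + (S.b⁻¹) ^ (n j - n i) with hγ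
      have h4 : |p * (γ - 2)| ≤ P * δ := by
        rw [abs_mul, abs_of_nonneg h2]
        exact mul_le_mul hpP h3 h2 hP0.le
      rw [abs_le] at h1 h4 ⊢
      constructor <;> linarith [h1.1, h1.2, h4.1, h4.2]
    intro i j hij
    rcases lt_or_gt_of_ne hij with h | h
    · exact key i j h
    · rw [S.symm]; exact key j i h
  have h0m : 0 < m := by omega
  have hAe : -κ ≤ e - A0 ∧ e - A0 ≤ 2 * Λ + κ := by
    have hlt01 : (⟨0, h0m⟩ : Fin m) < ⟨1, by omega⟩ := Fin.mk_lt_mk.mpr Nat.zero_lt_one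
    have h1 := hoffκ ⟨0, h0m⟩ ⟨1, by omega⟩ hlt01.ne
    rw [hoff1 _ _ hlt01] at h1
    have h2 := S.E_le x (n ⟨1, by omega⟩ - n ⟨0, h0m⟩)
    rw [abs_le] at h1 h2
    constructor <;> linarith [h1.1, h1.2, h2.1, h2.2]
  have hsm : ∀ w' : V, S.E w' w' ≤ Λ → S.E w' w' * (e - A0 + m * κ) ≤ m * ρ ^ 2 := by
    intro w' hw'
    have h1 : e - A0 + m * κ ≤ 2 * Λ + (m + 1) * κ := by linarith [hAe.2]
    have h2 : 0 ≤ e - A0 + m * κ := by nlinarith [hAe.1]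
    calc S.E w' w' * (e - A0 + m * κ) ≤ Λ * (2 * Λ + (m + 1) * κ) :=
          mul_le_mul hw' h1 h2 hΛ0
      _ ≤ m * ρ ^ 2 := hρ
  have hEyΛ : S.E y y ≤ Λ := by linarith
  obtain ⟨i, hi⟩ := S.exists_small h0m w y ((S.g ^ k) y) hmy hρ0 hκ0 hdiag hoffκ
    (hsm _ (by rw [E_pow]; exact hEyΛ))
  obtain ⟨i', hi'⟩ := S.exists_small h0m (fun j => (S.g ^ k) (w j)) ((S.g ^ k) y) (w i)
    (by rw [← map_smul, hmy, map_sum]) hρ0 hκ0
    (fun j => by rw [E_pow]; exact hdiag j)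
    (fun j j' hj => by rw [E_pow]; exact hoffκ j j' hj)
    (hsm _ (by rw [hdiag]; exact he))
  have hEdiff : |S.E y ((S.g ^ k) y) - S.E (w i) ((S.g ^ k) (w i'))| ≤ 2 * ρ := by
    have h1 : S.E y ((S.g ^ k) y) - S.E (w i) ((S.g ^ k) (w i')) =
        -(S.E (w i - y) ((S.g ^ k) y)) - S.E ((S.g ^ k) (w i') - (S.g ^ k) y) (w i) := by
      have h2 := S.symm (w i) ((S.g ^ k) (w i'))
      have h3 := S.symm (w i) ((S.g ^ k) y)
      simp only [map_sub, LinearMap.sub_apply]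
      linarith
    rw [h1]
    rw [abs_le] at hi hi' ⊢
    constructor <;> linarith [hi.1, hi.2, hi'.1, hi'.2]
  -- the close value
  have hval : S.Q (w i) ((S.g ^ k) (w i')) =
      S.Q x ((S.g ^ (Nat.dist (n i) (k + n i'))) x) := by
    have h1 : (S.g ^ k) (w i') = (S.g ^ (k + n i')) x := by
      rw [pow_add, Module.End.mul_apply]
    rw [h1, hw, Q_pow_dist]
  have hl : Nat.dist (n i) (k + n i') ≤ k + R := by
    have h1 := hn i
    have h2 := hn i'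
    unfold Nat.dist
    omega
  obtain ⟨z, hzA, hz⟩ := hNI (Nat.dist (n i) (k + n i')) (by
    have h1 : S.b ^ (Nat.dist (n i) (k + n i')) ≤ S.b ^ (k + R) :=
      pow_le_pow_right₀ hb.le hl
    have h2 : |p| * S.b ^ (Nat.dist (n i) (k + n i')) ≤ |p| * S.b ^ (k + R) :=
      mul_le_mul_of_nonneg_left h1 hppos.le
    rw [pow_add, ← mul_assoc] at h2
    have h3 : |p| * S.b ^ k * S.b ^ R ≤ 2 * M' * 2 :=
      mul_le_mul hpk (by linarith) (by positivity) (by linarith)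
    linarith)
  refine ⟨z, hzA, ?_⟩
  rw [← hval] at hz
  -- hyperbolic parts
  have hbki : 0 < (S.b⁻¹) ^ k := by positivity
  have hbki1 : (S.b⁻¹) ^ k ≤ S.b ^ k := by
    rw [inv_pow]; exact (inv_le_one_of_one_le₀ hbk1).trans hbk1
  have hQy : S.Q y ((S.g ^ k) y) = S.E y ((S.g ^ k) y) + p * rX * (S.b ^ k + (S.b⁻¹) ^ k) := by
    rw [q_eq, hpy]
  set ω := (S.b⁻¹) ^ (n i) * S.b ^ (n i') with hω
  set ω' := S.b ^ (n i) * (S.b⁻¹) ^ (n i') with hω'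
  have hQw : S.Q (w i) ((S.g ^ k) (w i')) = S.E (w i) ((S.g ^ k) (w i')) +
      p * (ω * S.b ^ k + ω' * (S.b⁻¹) ^ k) := by
    unfold Q
    rw [hw]
    simp only [α_pow, β_pow]
    rw [hp, hω, hω']; ring
  have hωb : 1 - δ ≤ ω ∧ ω ≤ 1 + δ := by
    obtain ⟨h1, h2⟩ := hbn i'
    obtain ⟨h3, h4, _⟩ := hbi i
    have h5 : 0 < (S.b⁻¹) ^ (n i) := by positivity
    constructor
    · have : (S.b⁻¹) ^ (n i) * 1 ≤ (S.b⁻¹) ^ (n i) * S.b ^ (n i') :=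
        mul_le_mul_of_nonneg_left h1 h5.le
      linarith
    · calc ω ≤ 1 * (1 + δ) := mul_le_mul h4 h2 (by linarith) (by norm_num)
        _ = 1 + δ := one_mul _
  have hωb' : 1 - δ ≤ ω' ∧ ω' ≤ 1 + δ := by
    obtain ⟨h1, h2⟩ := hbn i
    obtain ⟨h3, h4, _⟩ := hbi i'
    have h5 : 0 < (S.b⁻¹) ^ (n i') := by positivity
    constructor
    · have : 1 * (S.b⁻¹) ^ (n i') ≤ S.b ^ (n i) * (S.b⁻¹) ^ (n i') :=
        mul_le_mul_of_nonneg_right h1 h5.le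
      linarith
    · calc ω' ≤ (1 + δ) * 1 := mul_le_mul h2 h4 h5.le (by linarith)
        _ = 1 + δ := mul_one _
  have hG : |p * rX * (S.b ^ k + (S.b⁻¹) ^ k) - p * (ω * S.b ^ k + ω' * (S.b⁻¹) ^ k)| ≤
      8 * M' * δ := by
    have h1 : p * rX * (S.b ^ k + (S.b⁻¹) ^ k) - p * (ω * S.b ^ k + ω' * (S.b⁻¹) ^ k) =
        p * ((rX - ω) * S.b ^ k + (rX - ω') * (S.b⁻¹) ^ k) := by ring
    rw [h1, abs_mul]
    have h2 : |rX - ω| ≤ 2 * δ := by
      rw [abs_le]; constructor <;> linarith [hωb.1, hωb.2]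
    have h3 : |rX - ω'| ≤ 2 * δ := by
      rw [abs_le]; constructor <;> linarith [hωb'.1, hωb'.2]
    have h4 : |(rX - ω) * S.b ^ k + (rX - ω') * (S.b⁻¹) ^ k| ≤ 4 * δ * S.b ^ k := by
      calc |(rX - ω) * S.b ^ k + (rX - ω') * (S.b⁻¹) ^ k| ≤
            |(rX - ω) * S.b ^ k| + |(rX - ω') * (S.b⁻¹) ^ k| := abs_add_le _ _
        _ = |rX - ω| * S.b ^ k + |rX - ω'| * (S.b⁻¹) ^ k := by
            rw [abs_mul, abs_mul, abs_of_pos hbk, abs_of_pos hbki]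
        _ ≤ 2 * δ * S.b ^ k + 2 * δ * S.b ^ k :=
            add_le_add (mul_le_mul_of_nonneg_right h2 hbk.le)
              (mul_le_mul h3 hbki1 hbki.le (by linarith))
        _ = 4 * δ * S.b ^ k := by ring
    calc |p| * |(rX - ω) * S.b ^ k + (rX - ω') * (S.b⁻¹) ^ k| ≤ |p| * (4 * δ * S.b ^ k) :=
          mul_le_mul_of_nonneg_left h4 hppos.le
      _ = 4 * δ * (|p| * S.b ^ k) := by ring
      _ ≤ 4 * δ * (2 * M') := mul_le_mul_of_nonneg_left hpk (by linarith)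
      _ = 8 * M' * δ := by ring
  rw [hQw] at hz
  rw [hQy]
  rw [abs_le] at hz hEdiff hG ⊢
  constructor <;> linarith [hz.1, hz.2, hEdiff.1, hEdiff.2, hG.1, hG.2]

end Sys

end Pool.Agent.MP1f45fc.U
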